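import Mathlib
import Pool.Agent.R142.Prod4

/-!
# Magnitude denominators and vertex-transitivity in odd rank

For every odd `r ≥ 5` there is an arrangement of `n = r + 1` hyperplanes of rank `r` whose tope
graph is not vertex-transitive although `Φ_{2n}` does not divide the denominator of its magnitude.
-/

set_option autoImplicit false

namespace Pool.Agent.Results.MP_0e848e_co.OddRank

open Pool.Agent.R142.Arr Pool.Agent.R142.Mag Pool.Agent.R142.Prod4

/-- The statement of Q1. -/
def Q1 : Prop := ∀ (d : ℕ) (A : Finset (Submodule ℝ (Fin d → ℝ))), IsArrangement A →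
  Odd (rank A) → 3 ≤ rank A →
    (¬ VertexTransitive (topeGraph A) ↔
      Polynomial.cyclotomic (2 * A.card) ℚ ∣ (magnitude (topeGraph A)).denom)

theorem main (r : ℕ) (hr : Odd r) (h5 : 5 ≤ r) :
    ∃ (d : ℕ) (A : Finset (Submodule ℝ (Fin d → ℝ))), IsArrangement A ∧ rank A = r ∧
      A.card = r + 1 ∧ Finite (Chamber A) ∧ ¬ VertexTransitive (topeGraph A) ∧
      ¬ Polynomial.cyclotomic (2 * A.card) ℚ ∣ (magnitude (topeGraph A)).denom := by
  obtain ⟨m, rfl⟩ : ∃ m, r = 3 + m := ⟨r - 3, by omega⟩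
  refine ⟨3 + m, arr (f m), isArrangement m, rank_arr m, ?_, finite_chamber m, not_transitive m, ?_⟩
  · rw [card_arr]
    ring
  · rw [card_arr]
    apply not_dvd
    · intro hdvd
      have h1 := Nat.le_of_dvd (by norm_num) hdvd
      omega
    · omega

theorem result :
    (∀ r : ℕ, Odd r → 5 ≤ r →
      ∃ (d : ℕ) (A : Finset (Submodule ℝ (Fin d → ℝ))), IsArrangement A ∧ rank A = r ∧
        A.card = r + 1 ∧ Finite (Chamber A) ∧ ¬ VertexTransitive (topeGraph A) ∧
        ¬ Polynomial.cyclotomic (2 * A.card) ℚ ∣ (magnitude (topeGraph A)).denom) ∧ ¬ Q1 := by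
  refine ⟨main, fun h => ?_⟩
  obtain ⟨d, A, h1, h2, -, -, h3, h4⟩ := main 5 (by decide) le_rfl
  exact h4 ((h d A h1 (h2 ▸ by decide) (by omega)).1 h3)

end Pool.Agent.Results.MP_0e848e_co.OddRank
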